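import Pool.Agent.Helper91.KZ.StM

/-!
# (AR1) the norm argument
-/

namespace Pool.Agent.Helper91.KZ

open Polynomial TensorProduct

universe u

noncomputable section

namespace AR1

open Algebra.TensorProduct in
/-- coordinates are functorial in the coefficients -/
theorem repr_map {E B R R' ι : Type*} [CommRing E] [CommRing B] [Algebra E B] [CommRing R]
    [Algebra E R] [CommRing R'] [Algebra E R'] (b : Module.Basis ι E B) (φ : R →ₐ[E] R')
    (y : R ⊗[E] B) (i : ι) :
    (Algebra.TensorProduct.basis R' b).repr (Algebra.TensorProduct.map φ (AlgHom.id E B) y) i =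
      φ ((Algebra.TensorProduct.basis R b).repr y i) := by
  induction y using TensorProduct.induction_on with
  | zero => simp
  | tmul r t => simp [Algebra.TensorProduct.basis_repr_tmul]
  | add x y hx hy => simp [hx, hy]

/-- norms commute with change of coefficients -/
theorem norm_map {E B R R' ι : Type*} [CommRing E] [CommRing B] [Algebra E B] [CommRing R]
    [Algebra E R] [CommRing R'] [Algebra E R'] [Fintype ι] [DecidableEq ι]
    (b : Module.Basis ι E B) (φ : R →ₐ[E] R') (x : R ⊗[E] B) :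
    φ (Algebra.norm R x) =
      Algebra.norm R' (Algebra.TensorProduct.map φ (AlgHom.id E B) x) := by
  rw [Algebra.norm_eq_matrix_det (Algebra.TensorProduct.basis R b),
    Algebra.norm_eq_matrix_det (Algebra.TensorProduct.basis R' b)]
  have h : (Algebra.leftMulMatrix (Algebra.TensorProduct.basis R b) x).map φ =
      Algebra.leftMulMatrix (Algebra.TensorProduct.basis R' b)
        (Algebra.TensorProduct.map φ (AlgHom.id E B) x) := by
    ext i j
    rw [Matrix.map_apply, Algebra.leftMulMatrix_eq_repr_mul, Algebra.leftMulMatrix_eq_repr_mul,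
      ← repr_map b φ]
    congr 2
    simp [map_mul, Algebra.TensorProduct.basis_apply]
  rw [← h]
  exact RingHom.map_det φ.toRingHom _

/-- the norm of `1 ⊗ z` -/
theorem norm_one_tmul {E Z : Type*} [Field E] [Field Z] [Algebra E Z] [FiniteDimensional E Z]
    (z : Z) : Algebra.norm Z ((1 : Z) ⊗ₜ[E] z) = algebraMap E Z (Algebra.norm E z) := by
  rw [Algebra.norm_apply, Algebra.norm_apply, ← LinearMap.det_baseChange]
  congr 1
  ext x
  simp

/-- the components of the coefficients -/
theorem glue {Z A B : Type u} [Field Z] [CommRing A] [Algebra Z A] [IsArtinianRing A]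
    [IsReduced A] [CommRing B] [Algebra Z B] {ι : Type} [Fintype ι] [DecidableEq ι]
    (b : Module.Basis ι Z B) (u v : A)
    (h : ∀ I : MaximalSpectrum A, ∃ τ : (A ⧸ I.asIdeal) ⊗[Z] B,
      Ideal.Quotient.mk I.asIdeal u = Algebra.norm (A ⧸ I.asIdeal) τ *
        Ideal.Quotient.mk I.asIdeal v) :
    ∃ τ : A ⊗[Z] B, u = Algebra.norm A τ * v := by
  choose τ hτ using h
  let r : ι → A := fun l => (IsArtinianRing.equivPi A).symm
    (fun I => (Algebra.TensorProduct.basis (A ⧸ I.asIdeal) b).repr (τ I) l)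
  have hr : ∀ l (I : MaximalSpectrum A), Ideal.Quotient.mk I.asIdeal (r l) =
      (Algebra.TensorProduct.basis (A ⧸ I.asIdeal) b).repr (τ I) l := by
    intro l I
    have := congrFun ((IsArtinianRing.equivPi A).apply_symm_apply
      (fun I => (Algebra.TensorProduct.basis (A ⧸ I.asIdeal) b).repr (τ I) l)) I
    rw [IsArtinianRing.equivPi_apply] at this
    exact this
  let τA : A ⊗[Z] B := (Algebra.TensorProduct.basis A b).equivFun.symm r
  have hτA : ∀ I : MaximalSpectrum A,
      Algebra.TensorProduct.map (Ideal.Quotient.mkₐ Z I.asIdeal) (AlgHom.id Z B) τA = τ I := by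
    intro I
    apply (Algebra.TensorProduct.basis (A ⧸ I.asIdeal) b).repr.injective
    ext l
    rw [repr_map b (Ideal.Quotient.mkₐ Z I.asIdeal), Ideal.Quotient.mkₐ_eq_mk, ← hr l I]
    congr 1
    have := congrFun ((Algebra.TensorProduct.basis A b).equivFun.apply_symm_apply r) l
    rw [Module.Basis.equivFun_apply] at this
    exact this
  refine ⟨τA, (IsArtinianRing.equivPi A).injective ?_⟩
  funext I
  rw [IsArtinianRing.equivPi_apply, IsArtinianRing.equivPi_apply]
  change Ideal.Quotient.mk I.asIdeal u = Ideal.Quotient.mk I.asIdeal _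
  rw [hτ I, map_mul]
  congr 1
  have := norm_map b (Ideal.Quotient.mkₐ Z I.asIdeal) τA
  rw [hτA I, Ideal.Quotient.mkₐ_eq_mk] at this
  exact this.symm

end AR1

theorem st_AR1 : ST_AR1 := by
  intro E T Z _ _ _ _ _ _ _ _ z hz h
  classical
  -- the algebra `A = Z ⊗ Z`
  have : Algebra.IsSeparable E Z := inferInstance
  have : Algebra.FormallyUnramified E Z := Algebra.FormallyUnramified.of_isSeparable E Z
  have hred : IsReduced (Z ⊗[E] Z) := Algebra.FormallyUnramified.isReduced_of_field Z (Z ⊗[E] Z)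
  have : IsArtinianRing (Z ⊗[E] Z) := IsArtinianRing.of_finite Z (Z ⊗[E] Z)
  have hmain : ∃ τ : (Z ⊗[E] Z) ⊗[Z] (Z ⊗[E] T),
      (z ⊗ₜ 1 : Z ⊗[E] Z) = Algebra.norm (Z ⊗[E] Z) τ * ((1 : Z) ⊗ₜ[E] z) := by
    refine AR1.glue (Algebra.TensorProduct.basis Z (Module.finBasis E T)) _ _ fun I => ?_
    let : Field ((Z ⊗[E] Z) ⧸ I.asIdeal) := Ideal.Quotient.field I.asIdeal
    have hfin : FiniteDimensional E ((Z ⊗[E] Z) ⧸ I.asIdeal) :=
      Module.Finite.of_surjective (Ideal.Quotient.mkₐ E I.asIdeal).toLinearMap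
        Ideal.Quotient.mk_surjective
    obtain ⟨τ, hτ⟩ := h ((Z ⊗[E] Z) ⧸ I.asIdeal)
      ((Ideal.Quotient.mkₐ E I.asIdeal).comp Algebra.TensorProduct.includeLeft)
      ((Ideal.Quotient.mkₐ E I.asIdeal).comp Algebra.TensorProduct.includeRight)
    let e := Algebra.TensorProduct.cancelBaseChange E Z ((Z ⊗[E] Z) ⧸ I.asIdeal)
      ((Z ⊗[E] Z) ⧸ I.asIdeal) T
    refine ⟨e.symm τ, ?_⟩
    have h1 : Algebra.norm ((Z ⊗[E] Z) ⧸ I.asIdeal) (e.symm τ) =
        Algebra.norm ((Z ⊗[E] Z) ⧸ I.asIdeal) τ := by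
      rw [← Algebra.norm_eq_of_algEquiv e, AlgEquiv.apply_symm_apply]
    rw [h1]
    exact hτ
  obtain ⟨τ, hτ⟩ := hmain
  refine ⟨Algebra.norm (Z ⊗[E] T) (Algebra.TensorProduct.comm Z (Z ⊗[E] Z) (Z ⊗[E] T) τ), ?_⟩
  rw [Algebra.norm_norm, Algebra.norm_eq_of_algEquiv, ← AR1.norm_one_tmul, ← Algebra.norm_norm
    (S := Z ⊗[E] Z), ← map_mul, ← hτ]
  have : (z ⊗ₜ[E] (1 : Z)) = algebraMap Z (Z ⊗[E] Z) z := rfl
  rw [this, Algebra.norm_algebraMap, Module.finrank_baseChange]

end

end Pool.Agent.Helper91.KZ
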