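import Pool.Agent.Helper91.KZ.StT

/-!
# (CYK) the twisted module of a cyclic algebra
-/

namespace Pool.Agent.Helper91.KZ

open Polynomial TensorProduct

universe u

noncomputable section

namespace CYK

open scoped Classical in
/-- independence in central simple algebras -/
theorem indep {E T K : Type u} [Field E] [Field T] [Algebra E T] [Ring K] [Algebra E K]
    (hK : CS E K) (i : T →ₐ[E] K) {ι : Type} [Fintype ι]
    (b : Module.Basis ι E T) :
    ∀ (n : ℕ) (c : ι → K), (Finset.univ.filter fun l => c l ≠ 0).card = n →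
      (∀ v, ∑ l, c l * v * i (b l) = 0) → c = 0 := by
  have := hK.sim
  have : Nontrivial K := inferInstance
  intro n
  induction n using Nat.strong_induction_on with
  | _ n IH =>
  intro c hcn hc
  by_contra hne
  obtain ⟨l0, hl0⟩ : ∃ l0, c l0 ≠ 0 := by
    by_contra h
    push Not at h
    exact hne (funext h)
  -- the two-sided ideal of the `l0` components
  let I : TwoSidedIdeal K := TwoSidedIdeal.mk'
    {x | ∃ c' : ι → K, (∀ v, ∑ l, c' l * v * i (b l) = 0) ∧ (∀ l, c l = 0 → c' l = 0) ∧
      c' l0 = x}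
    ⟨0, by simp, by simp, by simp⟩
    (by
      rintro x y ⟨c1, h1, h2, h3⟩ ⟨c2, k1, k2, k3⟩
      refine ⟨c1 + c2, fun v => ?_, fun l hl => ?_, by simp [h3, k3]⟩
      · simp only [Pi.add_apply, add_mul, Finset.sum_add_distrib, h1, k1, add_zero]
      · simp [h2 l hl, k2 l hl])
    (by
      rintro x ⟨c1, h1, h2, h3⟩
      refine ⟨-c1, fun v => ?_, fun l hl => ?_, by simp [h3]⟩
      · simp only [Pi.neg_apply, neg_mul, Finset.sum_neg_distrib, h1, neg_zero]
      · simp [h2 l hl])
    (by
      rintro x y ⟨c1, h1, h2, h3⟩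
      refine ⟨fun l => x * c1 l, fun v => ?_, fun l hl => ?_, by simp [h3]⟩
      · have := h1 v
        simp only [mul_assoc, ← Finset.mul_sum] at this ⊢
        rw [this, mul_zero]
      · simp [h2 l hl])
    (by
      rintro x y ⟨c1, h1, h2, h3⟩
      refine ⟨fun l => c1 l * y, fun v => ?_, fun l hl => ?_, by simp [h3]⟩
      · have := h1 (y * v)
        simp only [mul_assoc] at this ⊢
        exact this
      · simp [h2 l hl])
  have hmem : c l0 ∈ I := (TwoSidedIdeal.mem_mk' _ _ _ _ _ _ _).2 ⟨c, hc, fun _ h => h, rfl⟩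
  have hone : (1 : K) ∈ I := IsSimpleRing.one_mem_of_ne_zero_mem I hl0 hmem
  obtain ⟨c', h1, h2, h3⟩ := (TwoSidedIdeal.mem_mk' _ _ _ _ _ _ _).1 hone
  -- the components of `c'` are central
  have hcen : ∀ l, ∀ w, c' l * w = w * c' l := by
    intro l w
    have hz : (fun l => w * c' l - c' l * w) = 0 := by
      refine IH _ ?_ _ rfl ?_
      · rw [← hcn]
        apply Finset.card_lt_card
        rw [Finset.ssubset_iff_of_subset]
        · refine ⟨l0, by simp [hl0], ?_⟩
          simp [h3]
        · intro l hl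
          simp only [Finset.mem_filter, Finset.mem_univ, true_and] at hl ⊢
          intro h
          exact hl (by simp [h2 l h])
      · intro v
        have k1 := h1 v
        have k2 := h1 (w * v)
        simp only [sub_mul, Finset.sum_sub_distrib, mul_assoc, ← Finset.mul_sum] at k1 k2 ⊢
        rw [k1, k2, mul_zero, sub_zero]
    have := congrFun hz l
    exact (sub_eq_zero.1 this).symm
  choose e he using fun l => hK.cen (c' l) (hcen l)
  have hs : i (∑ l, e l • b l) = 0 := by
    rw [map_sum, ← h1 1]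
    refine Finset.sum_congr rfl fun l _ => ?_
    rw [map_smul, Algebra.smul_def, he, mul_one]
  have hs' : ∑ l, e l • b l = 0 := i.toRingHom.injective (by simpa using hs)
  have := Fintype.linearIndependent_iff.1 b.linearIndependent e hs' l0
  have h4 := he l0
  rw [this, map_zero, h3] at h4
  exact one_ne_zero h4.symm

/-- right multiplication -/
@[reducible] def rmod {E T K : Type u} [Field E] [Field T] [Algebra E T] [Ring K] [Algebra E K]
    (i : T →ₐ[E] K) : Module T K where
  smul t v := v * i t
  one_smul v := by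
    change v * i 1 = v
    simp
  mul_smul a b v := by
    change v * i (a * b) = v * i b * i a
    rw [mul_comm a b, map_mul, mul_assoc]
  smul_zero a := zero_mul _
  smul_add a v w := add_mul _ _ _
  add_smul a b v := by
    change v * i (a + b) = v * i a + v * i b
    rw [map_add, mul_add]
  zero_smul v := by
    change v * i 0 = 0
    simp

/-- the structure of `T ⊗ K` -/
theorem endo {E T K : Type u} [Field E] [Field T] [Algebra E T] [FiniteDimensional E T]
    [Ring K] [Algebra E K] (hK : CS E K) (i : T →ₐ[E] K) (p : ℕ) (hp : 0 < p)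
    (hT : Module.finrank E T = p) (hd : Module.finrank E K = p ^ 2) :
    letI : Module T K := rmod i
    Module.finrank T K = p ∧ MI T (T ⊗[E] K) T p ∧
      ∀ f : K →ₗ[T] K, ∃ c : Fin p → T, ∃ x : Fin p → K, ∀ v, f v = ∑ l, x l * v * i (c l) := by
  let _ : Module T K := rmod i
  have hsm : ∀ (t : T) (v : K), t • v = v * i t := fun _ _ => rfl
  have := hK.fin
  have : IsScalarTower E T K := ⟨fun e t v => by
    rw [hsm, hsm, map_smul, Algebra.mul_smul_comm]⟩
  have : FiniteDimensional T K := Module.Finite.of_restrictScalars_finite E T K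
  have hfin : Module.finrank T K = p := by
    have := Module.finrank_mul_finrank E T K
    rw [hT, hd, sq] at this
    exact Nat.eq_of_mul_eq_mul_left hp this
  have : SMulCommClass E T K := ⟨fun e t v => by
    rw [hsm, hsm, Algebra.smul_mul_assoc]⟩
  have : SMulCommClass T E K := SMulCommClass.symm _ _ _
  -- left multiplications
  let g : K →ₐ[E] Module.End T K := AlgHom.ofLinearMap
    { toFun := fun x =>
        { toFun := fun v => x * v
          map_add' := fun v w => mul_add _ _ _
          map_smul' := fun t v => by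
            simp only [hsm, RingHom.id_apply, mul_assoc] }
      map_add' := fun x y => by
        ext v
        exact add_mul _ _ _
      map_smul' := fun e x => by
        ext v
        simp }
    (by ext v; simp) (by intro x y; ext v; simp [mul_assoc])
  have hg : ∀ x v, g x v = x * v := fun _ _ => rfl
  let Φ : T ⊗[E] K →ₐ[T] Module.End T K := Algebra.TensorProduct.lift
    (Algebra.ofId T (Module.End T K)) g (fun t x => by
      rw [commute_iff_eq]
      ext v
      change t • (x * v) = x * (t • v)
      rw [hsm, hsm, mul_assoc])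
  have hΦ : ∀ t x v, Φ (t ⊗ₜ x) v = x * v * i t := by
    intro t x v
    rw [Algebra.TensorProduct.lift_tmul]
    change t • (x * v) = _
    rw [hsm]
  let b := Module.finBasisOfFinrankEq E T hT
  have hinj : Function.Injective Φ := by
    rw [injective_iff_map_eq_zero]
    intro s hs
    obtain ⟨c, rfl⟩ := TensorProduct.eq_repr_basis_left b s
    have : (fun l => c l) = 0 := by
      refine indep hK i b _ _ rfl fun v => ?_
      have := LinearMap.congr_fun hs v
      rw [Finsupp.sum_fintype _ _ (by simp)] at this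
      rw [map_sum, LinearMap.sum_apply] at this
      simpa [hΦ] using this
    rw [Finsupp.sum_fintype _ _ (by simp)]
    refine Finset.sum_eq_zero fun l _ => ?_
    have h0 := congrFun this l
    simp only [Pi.zero_apply] at h0
    rw [h0, tmul_zero]
  have hfr : Module.finrank T (T ⊗[E] K) = Module.finrank T (Module.End T K) := by
    rw [Module.finrank_baseChange, Module.finrank_linearMap, hfin, hd, sq]
  have hsurj : Function.Surjective Φ :=
    (LinearMap.injective_iff_surjective_of_finrank_eq_finrank (f := Φ.toLinearMap) hfr).1 hinj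
  refine ⟨hfin, ⟨hp, ⟨(AlgEquiv.ofBijective Φ ⟨hinj, hsurj⟩).trans
    (algEquivMatrix (Module.finBasisOfFinrankEq T K hfin))⟩⟩, ?_⟩
  intro f
  obtain ⟨s, hs⟩ := hsurj f
  obtain ⟨c, rfl⟩ := TensorProduct.eq_repr_basis_left b s
  refine ⟨fun l => b l, fun l => c l, fun v => ?_⟩
  rw [← hs, Finsupp.sum_fintype _ _ (by simp), map_sum, LinearMap.sum_apply]
  simp [hΦ]

/-- simplicity of the module -/
theorem simp_mod {E T K : Type u} [Field E] [Field T] [Algebra E T] [FiniteDimensional E T]
    [Ring K] [Algebra E K] (hK : CS E K) (i : T →ₐ[E] K) (p : ℕ) (hp : 0 < p)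
    (hT : Module.finrank E T = p) (hd : Module.finrank E K = p ^ 2) (W : AddSubgroup K)
    (h1 : ∀ (t : T), ∀ w ∈ W, w * i t ∈ W) (h2 : ∀ (x : K), ∀ w ∈ W, x * w ∈ W) :
    W = ⊥ ∨ W = ⊤ := by
  let _ : Module T K := rmod i
  have hsm : ∀ (t : T) (v : K), t • v = v * i t := fun _ _ => rfl
  obtain ⟨-, -, h3⟩ := endo hK i p hp hT hd
  rcases AddSubgroup.bot_or_exists_ne_zero W with hW | ⟨w, hw, hw0⟩
  · exact Or.inl hW
  right
  obtain ⟨φ, hφ⟩ : ∃ φ : Module.Dual T K, φ w ≠ 0 := by
    by_contra h
    push Not at h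
    exact hw0 ((Module.forall_dual_apply_eq_zero_iff T w).1 h)
  rw [eq_top_iff]
  intro v _
  obtain ⟨c, x, hf⟩ := h3 ((φ w)⁻¹ • φ.smulRight v)
  have h4 := hf w
  rw [LinearMap.smul_apply, LinearMap.smulRight_apply, smul_smul, inv_mul_cancel₀ hφ,
    one_smul] at h4
  rw [h4]
  exact AddSubgroup.sum_mem _ fun l _ => h1 _ _ (h2 _ _ hw)

/-- endomorphisms of the module -/
theorem full_mod {E T K : Type u} [Field E] [Field T] [Algebra E T] [FiniteDimensional E T]
    [Ring K] [Algebra E K] (hK : CS E K) (i : T →ₐ[E] K) (p : ℕ) (hp : 0 < p)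
    (hT : Module.finrank E T = p) (hd : Module.finrank E K = p ^ 2) (f : K →+ K)
    (h1 : ∀ (t : T) v, f (v * i t) = f v * i t) (h2 : ∀ (x v : K), f (x * v) = x * f v) :
    ∃ t : T, ∀ v, f v = v * i t := by
  let _ : Module T K := rmod i
  have hsm : ∀ (t : T) (v : K), t • v = v * i t := fun _ _ => rfl
  obtain ⟨-, -, h3⟩ := endo hK i p hp hT hd
  let F : Module.End T K :=
    { toFun := f
      map_add' := f.map_add
      map_smul' := fun t v => by
        rw [hsm, h1, RingHom.id_apply, hsm] }
  have hF : F ∈ Subalgebra.center T (Module.End T K) := by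
    rw [Subalgebra.mem_center_iff]
    intro G
    obtain ⟨c, x, hG⟩ := h3 G
    ext v
    change G (f v) = f (G v)
    rw [hG, hG, map_sum]
    refine Finset.sum_congr rfl fun l _ => ?_
    rw [h1, h2]
  have := Algebra.IsCentral.out (K := T) hF
  rw [Algebra.mem_bot] at this
  obtain ⟨t, ht⟩ := this
  refine ⟨t, fun v => ?_⟩
  have h4 := LinearMap.congr_fun ht v
  rw [Module.algebraMap_end_apply] at h4
  exact h4.symm

end CYK

theorem st_CYK : ST_CYK := by
  intro E T K _ _ _ _ _ _ _ p σ i y z hp hT hσ hC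
  classical
  obtain ⟨hK, hd, hyt, hyp, hz⟩ := hC
  have hp0 : 0 < p := hp.pos
  have hsim := hK.sim
  have hnt : Nontrivial K := inferInstance
  obtain ⟨hfr, hMI, -⟩ := CYK.endo hK i p hp0 hT hd
  refine ⟨hMI, ?_⟩
  -- the unit `y`
  have hyu : IsUnit y := by
    rw [← isUnit_pow_iff hp.ne_zero, hyp]
    exact (IsUnit.mk0 z hz).map _
  obtain ⟨w, rfl⟩ := hyu
  have hyk : ∀ (k : ℕ) t, ((w⁻¹ : Kˣ) : K) ^ k * i ((σ ^ k) t) = i t * ((w⁻¹ : Kˣ) : K) ^ k := by
    have h0 : ∀ t, ((w⁻¹ : Kˣ) : K) * i (σ t) = i t * ((w⁻¹ : Kˣ) : K) := by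
      intro t
      have := hyt t
      rw [Units.inv_mul_eq_iff_eq_mul, ← mul_assoc, this, mul_assoc, Units.mul_inv, mul_one]
    intro k
    induction k with
    | zero => simp
    | succ k ih =>
      intro t
      rw [pow_succ ((w⁻¹ : Kˣ) : K), pow_succ' σ, AlgEquiv.mul_apply, mul_assoc, h0, ← mul_assoc,
        ih, mul_assoc]
  -- the group
  have hcard : Nat.card (T ≃ₐ[E] T) = p := by rw [IsGalois.card_aut_eq_finrank, hT]
  have : Fact p.Prime := ⟨hp⟩
  have hord : orderOf σ = p := by
    have h1 := orderOf_dvd_natCard σ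
    rw [hcard] at h1
    rcases (Nat.dvd_prime hp).1 h1 with h2 | h2
    · exact absurd (orderOf_eq_one_iff.1 h2) hσ
    · exact h2
  have hex : ∀ g : T ≃ₐ[E] T, ∃ j, j < p ∧ σ ^ j = g := by
    intro g
    have h1 : g ∈ Subgroup.zpowers σ := by
      rw [zpowers_eq_top_of_prime_card hcard hσ]
      trivial
    rw [mem_zpowers_iff_mem_range_orderOf, Finset.mem_image] at h1
    obtain ⟨j, hj, hj'⟩ := h1
    rw [Finset.mem_range, hord] at hj
    exact ⟨j, hj, hj'⟩
  choose jj hjp hjs using hex
  have hju : ∀ k, k < p → jj (σ ^ k) = k := by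
    intro k hk
    exact pow_injOn_Iio_orderOf (by rw [hord]; exact hjp _) (by rw [hord]; exact hk) (hjs _)
  have hjm : ∀ g h, jj g + jj h < p → jj (g * h) = jj g + jj h := by
    intro g h hlt
    rw [← hju _ hlt, pow_add, hjs, hjs]
  have hjm' : ∀ g h, ¬ jj g + jj h < p → jj g + jj h = jj (g * h) + p := by
    intro g h hlt
    push Not at hlt
    have h1 := hjp g
    have h2 := hjp h
    have h3 : jj g + jj h - p < p := by omega
    have h4 : σ ^ (jj g + jj h - p) = g * h := by
      have h5 : σ ^ (jj g + jj h) = g * h := by rw [pow_add, hjs, hjs]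
      rw [← h5]
      conv_rhs => rw [show jj g + jj h = (jj g + jj h - p) + p from by omega, pow_add]
      rw [← hord, pow_orderOf_eq_one, mul_one]
    rw [← h4, hju _ h3]
    omega
  have hwp : ((w⁻¹ : Kˣ) : K) ^ p = algebraMap E K z⁻¹ := by
    have h1 : ((w⁻¹ : Kˣ) : K) ^ p * (w : K) ^ p = 1 := by
      rw [← Units.val_pow_eq_pow_val, ← Units.val_pow_eq_pow_val, ← Units.val_mul, inv_pow,
        inv_mul_cancel, Units.val_one]
    rw [hyp] at h1
    calc ((w⁻¹ : Kˣ) : K) ^ p = ((w⁻¹ : Kˣ) : K) ^ p * (algebraMap E K z * algebraMap E K z⁻¹) := by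
          rw [← map_mul, mul_inv_cancel₀ hz, map_one, mul_one]
      _ = _ := by rw [← mul_assoc, h1, one_mul]
  let a : (T ≃ₐ[E] T) → (T ≃ₐ[E] T) → T := fun g h =>
    if jj g + jj h < p then 1 else algebraMap E T z⁻¹
  let S : TW E T K :=
    { B := T
      divB := inferInstance
      algB := Algebra.id T
      V := K
      grpV := inferInstance
      modN := CYK.rmod i
      modX := inferInstance
      modB := CYK.rmod i
      R := fun g => AddAut.mulRight (w⁻¹ ^ jj g)
      U := a
      nt := hnt
      nx := fun n x v => (mul_assoc x v (i n))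
      nb := fun n b v => by
        change v * i b * i n = v * i n * i b
        rw [mul_assoc, mul_assoc, ← map_mul, ← map_mul, mul_comm]
      xb := fun x b v => (mul_assoc x v (i b)).symm
      ee := fun e v => by
        change v * i (algebraMap E T e) = algebraMap E K e * v
        rw [AlgHom.commutes, Algebra.commutes]
      bn := fun n v => rfl
      sm := fun W h1 h2 => CYK.simp_mod hK i p hp0 hT hd W h1 h2
      full := fun f h1 h2 => CYK.full_mod hK i p hp0 hT hd f h1 h2
      rn := fun g n v => by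
        change v * i n * ((w⁻¹ ^ jj g : Kˣ) : K) = v * ((w⁻¹ ^ jj g : Kˣ) : K) * i (g n)
        have h1 := hyk (jj g) n
        rw [hjs] at h1
        rw [Units.val_pow_eq_pow_val, mul_assoc, mul_assoc, h1]
      rx := fun g x v => mul_assoc x v _
      co := fun g h v => by
        change v * ((w⁻¹ ^ jj h : Kˣ) : K) * ((w⁻¹ ^ jj g : Kˣ) : K) =
          v * ((w⁻¹ ^ jj (g * h) : Kˣ) : K) * i (a g h)
        rw [mul_assoc, mul_assoc]
        congr 1
        rw [← Units.val_mul, ← pow_add, add_comm (jj h)]
        by_cases hlt : jj g + jj h < p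
        · rw [show a g h = 1 from if_pos hlt, map_one, mul_one, hjm g h hlt]
        · rw [show a g h = algebraMap E T z⁻¹ from if_neg hlt, AlgHom.commutes, ← hwp,
            hjm' g h hlt, Units.val_pow_eq_pow_val, Units.val_pow_eq_pow_val, pow_add] }
  refine ⟨S, a, ⟨fun g h => ?_, fun _ _ => rfl, fun t => ⟨t, rfl⟩, hp0, hfr⟩, ?_⟩
  · by_cases hlt : jj g + jj h < p
    · rw [show a g h = 1 from if_pos hlt]
      exact one_ne_zero
    · rw [show a g h = algebraMap E T z⁻¹ from if_neg hlt]
      exact (_root_.map_ne_zero (algebraMap E T)).2 (inv_ne_zero hz)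
  · have hj1 : jj σ = 1 := by
      have := hju 1 hp.one_lt
      rwa [pow_one] at this
    obtain ⟨q, rfl⟩ : ∃ q, p = q + 1 := ⟨p - 1, by omega⟩
    rw [Finset.prod_range_succ]
    have h1 : ∀ k ∈ Finset.range q, a (σ ^ k) σ = 1 := by
      intro k hk
      rw [Finset.mem_range] at hk
      refine if_pos ?_
      rw [hju k (by omega), hj1]
      omega
    rw [Finset.prod_congr rfl h1, Finset.prod_const_one, one_mul]
    refine if_neg ?_
    rw [hju q (by omega), hj1]
    omega

end

end Pool.Agent.Helper91.KZ
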