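import Pool.Agent.Helper91.KZ.StM

/-!
# MP_1d885e_al: module PRI
-/

namespace Pool.Agent.Helper91.KZ

open Polynomial TensorProduct

universe u

namespace PRI

theorem cd_unique {E K : Type u} [Field E] [DivisionRing K] [Algebra E K] {m n : ℕ}
    (h : Module.finrank E K = m ^ 2) (h' : Module.finrank E K = n ^ 2) : m = n := by
  have := h.symm.trans h'
  exact Nat.pow_left_injective (n := 2) (by norm_num) this

/-- one by one matrices -/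
theorem mat1 (M Δ : Type u) [Field M] [Ring Δ] [Algebra M Δ] :
    Nonempty (Δ ≃ₐ[M] Matrix (Fin 1) (Fin 1) Δ) :=
  ⟨{  toFun := fun x => Matrix.of fun _ _ => x
      invFun := fun m => m 0 0
      left_inv := fun x => rfl
      right_inv := by
        intro m
        ext i j
        rw [Subsingleton.elim i 0, Subsingleton.elim j 0]
        rfl
      map_mul' := by
        intro x y
        ext i j
        simp [Matrix.mul_apply]
      map_add' := by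
        intro x y
        ext i j
        simp
      commutes' := by
        intro r
        ext i j
        simp [Matrix.algebraMap_matrix_apply, Subsingleton.elim i j] }⟩

theorem cancel (hMMI : ST_MMI.{u}) (F M N Γ : Type u) [Field F] [Field M] [Field N] [Algebra F M]
    [Algebra F N] [Algebra M N] [IsScalarTower F M N] [Ring Γ] [Algebra F Γ] :
    Nonempty (N ⊗[F] Γ ≃ₐ[N] N ⊗[M] (M ⊗[F] Γ)) := by
  obtain ⟨-, ⟨e⟩⟩ := (hMMI F M).2.2.2.2.1 N Γ (M ⊗[F] Γ) 1 ⟨one_pos, mat1 M (M ⊗[F] Γ)⟩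
  obtain ⟨e'⟩ := mat1 N (N ⊗[M] (M ⊗[F] Γ))
  exact ⟨e.trans e'.symm⟩

theorem core (hCS1 : ST_CS1.{u}) (hCS2 : ST_CS2.{u}) (hIDD : ST_IDD.{u})
    (hTWR : ST_TWR.{u}) (hTWM : ST_TWM.{u}) (hTWK : ST_TWK.{u}) (hTWC : ST_TWC.{u})
    (hTWY : ST_TWY.{u}) (hKIL : ST_KIL.{u}) (hCOH : ST_COH.{u}) (hRSC : ST_RSC.{u})
    (hTRI : ST_TRI.{u}) (hNSC : ST_NSC.{u}) (hMMI : ST_MMI.{u}) (hUNI : ST_UNI.{u})
    (F N Γ L M : Type u) [Field F] [Uncountable F] [PerfectField F] [Field N]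
    [Algebra F N] [FiniteDimensional F N] [IsGalois F N] [Ring Γ] [Algebra F Γ] [DivisionRing L]
    [Algebra F L] [Field M] [Algebra F M] [Algebra M N] [IsScalarTower F M N]
    [FiniteDimensional F M]
    (p n k r d l t : ℕ) (S : TW F N Γ) (a : (N ≃ₐ[F] N) → (N ≃ₐ[F] N) → N) (hp : p.Prime)
    (hS : TWS S n a) (hN : MI N (N ⊗[F] Γ) N n)
    (hcoh : Coh (fun g h => a g h ^ p ^ k) (fun _ _ => 1))
    (hL : MI F Γ L r) (hLd : CD F L d) (hl : l.Prime) (hlp : l ≠ p)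
    (hFN : Module.finrank M N = l ^ t) : d ∣ Module.finrank F M := by
  have : Uncountable M := (algebraMap F M).injective.uncountable
  have : Uncountable N := (algebraMap F N).injective.uncountable
  have : PerfectField M := Algebra.IsAlgebraic.perfectField (K := F)
  have : PerfectField N := Algebra.IsAlgebraic.perfectField (K := F)
  have : FiniteDimensional M N := FiniteDimensional.right F M N
  have : IsGalois M N := IsGalois.tower_top_of_isGalois F M N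
  have : FiniteDimensional F L := hLd.2.2.1
  -- the algebra over `M`
  obtain ⟨s, d₀, L', iL', aL', hd₀, hsL', -⟩ :=
    (hCS2 M).1 (M ⊗[F] L) ((hCS1 F).2 L M ((hCS2 F).2 L d hLd))
  obtain ⟨hsd, d', hdd, hL'⟩ := hIDD F L M L' d s hLd hsL'
  have hCSL' : CS M L' := (hCS2 M).2 L' d' hL'
  -- over `N`
  have h1 : MI N (N ⊗[F] Γ) (N ⊗[M] L') (r * s) :=
    (hMMI N N).1 _ _ _ r s ((hMMI F N).2.1 Γ L r hL) ((hMMI F M).2.2.2.2.1 N L L' s hsL')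
  obtain ⟨c, d₁, Ξ, iX, aX, hX, hcX, -⟩ :=
    (hCS2 N).1 (N ⊗[M] L') ((hCS1 M).2 L' N hCSL')
  have h2 : MI N (N ⊗[F] Γ) Ξ (r * s * c) := (hMMI N N).1 _ _ _ (r * s) c h1 hcX
  obtain ⟨-, ⟨eX⟩⟩ := hUNI N (N ⊗[F] Γ) Ξ N (r * s * c) n h2 hN
  obtain ⟨-, d₂, hd₂, hX₂⟩ := hIDD M L' N Ξ d' c hL' hcX
  have hX1 : Module.finrank N Ξ = 1 := by
    rw [eX.toLinearEquiv.finrank_eq, Module.finrank_self]
  have hd₂1 : d₂ = 1 := PRI.cd_unique hX₂.2.2.2 (hX1.trans (one_pow 2).symm)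
  have hcd : c = d' := by rw [hd₂, hd₂1, mul_one]
  have hNL' : MI N (N ⊗[M] L') N d' := by
    rw [← hcd]
    obtain ⟨hc0, ⟨ec⟩⟩ := hcX
    exact ⟨hc0, ⟨ec.trans eX.mapMatrix⟩⟩
  -- the twisted modules
  obtain ⟨S', b, hS'⟩ := hTWK M N L' d' hCSL' hNL'
  have h3 : MI M (M ⊗[F] Γ) L' (r * s) :=
    (hMMI M M).1 _ _ _ r s ((hMMI F M).2.1 Γ L r hL) hsL'
  obtain ⟨T₂, e₂, he₂⟩ := hTWM M N L' (M ⊗[F] Γ) (r * s) S' h3
  obtain ⟨T₁, e₁, he₁⟩ := hTWR F M N Γ S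
  have hU₂ : ∀ g h, T₂.U g h = algebraMap N T₂.B (b g h) := by
    intro g h
    apply e₂.injective
    rw [he₂, hS'.ua, AlgEquiv.commutes]
  have hU₁ : ∀ g h : N ≃ₐ[M] N, T₁.U g h =
      algebraMap N T₁.B (a (g.restrictScalars F) (h.restrictScalars F)) := by
    intro g h
    apply e₁.injective
    rw [he₁, hS.ua, AlgEquiv.commutes]
  have hDAN : DA N N :=
    ⟨fun x => isIntegral_algebraMap (R := N) (A := N) (x := x), fun x _ => ⟨x, rfl⟩⟩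
  have hKPN : KP l 0 N N := by
    intro x hx
    have h4 : dg N x = 1 := by
      have h5 : minpoly N x = X - C x := minpoly.eq_X_sub_C N x
      rw [dg, h5, natDegree_X_sub_C]
    rw [h4, zero_add, pow_one, Nat.dvd_one] at hx
    exact hl.one_lt.ne' hx
  have hCor : Cor N (N ⊗[M] (M ⊗[F] Γ)) N n :=
    ⟨hDAN, (hMMI N N).2.2.2.2.2 _ _ _ n (cancel hMMI F M N Γ) hN⟩
  obtain ⟨q₀, hq0, hlq, hq⟩ := hTWC M N (M ⊗[F] Γ) N T₁ T₂ b n l hCor hl hKPN hS'.a0 hU₂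
  have h6 := hq q₀ dvd_rfl hq0
  -- calculus
  set a' : (N ≃ₐ[M] N) → (N ≃ₐ[M] N) → N :=
    fun g h => a (g.restrictScalars F) (h.restrictScalars F) with ha'
  have h7 : Coh (fun g h => a' g h ^ q₀) (fun g h => b g h ^ q₀) := by
    refine (congrArg (fun f => Coh f (fun g h => b g h ^ q₀)) ?_).mp h6
    funext g h
    rw [hU₁ g h, (hNSC N T₁.B).1]
  have ha0 : ∀ g h, a' g h ≠ 0 := fun g h => hS.a0 _ _
  have hb0 : ∀ g h, b g h ≠ 0 := hS'.a0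
  have h8 : Coh (fun g h => a' g h ^ p ^ k) (fun _ _ => 1) :=
    (hRSC F M N (fun g h => a g h ^ p ^ k) (fun _ _ => 1)).2 hcoh
  have hp0 : ∀ (f : (N ≃ₐ[M] N) → (N ≃ₐ[M] N) → N), (∀ g h, f g h ≠ 0) → ∀ m : ℕ,
      ∀ g h, f g h ^ m ≠ 0 := fun f hf m g h => pow_ne_zero m (hf g h)
  have h1n : ∀ _g _h : N ≃ₐ[M] N, (1 : N) ≠ 0 := fun _ _ => one_ne_zero
  have h9 : Coh (fun g h => (a' g h ^ p ^ k) ^ q₀) (fun _ _ => (1 : N) ^ q₀) :=
    (hCOH M N _ _ _ _ (hp0 a' ha0 (p ^ k)) h1n h1n h1n).2.2.2.2.1 q₀ h8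
  have h10 : Coh (fun g h => (a' g h ^ q₀) ^ p ^ k) (fun g h => (b g h ^ q₀) ^ p ^ k) :=
    (hCOH M N _ _ _ _ (hp0 a' ha0 q₀) (hp0 b hb0 q₀) h1n h1n).2.2.2.2.1 (p ^ k) h7
  have h11 : Coh (fun g h => a' g h ^ (q₀ * p ^ k)) (fun _ _ => (1 : N)) := by
    have e1 : (fun g h => (a' g h ^ p ^ k) ^ q₀) = (fun g h => a' g h ^ (q₀ * p ^ k)) := by
      funext g h
      rw [← pow_mul, mul_comm]
    have e2 : (fun _ _ : N ≃ₐ[M] N => (1 : N) ^ q₀) = (fun _ _ => (1 : N)) := by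
      funext g h
      rw [one_pow]
    rw [e1, e2] at h9
    exact h9
  have h12 : Coh (fun g h => a' g h ^ (q₀ * p ^ k)) (fun g h => b g h ^ (q₀ * p ^ k)) := by
    have e1 : ∀ f : (N ≃ₐ[M] N) → (N ≃ₐ[M] N) → N,
        (fun g h => (f g h ^ q₀) ^ p ^ k) = (fun g h => f g h ^ (q₀ * p ^ k)) := by
      intro f
      funext g h
      rw [← pow_mul]
    rw [e1, e1] at h10
    exact h10
  have h13 : Coh (fun g h => b g h ^ (q₀ * p ^ k)) (fun g h => a' g h ^ (q₀ * p ^ k)) :=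
    (hCOH M N _ _ _ _ (hp0 a' ha0 _) (hp0 b hb0 _) h1n h1n).2.1 h12
  have h14 : Coh (fun g h => b g h ^ (q₀ * p ^ k)) (fun _ _ => (1 : N)) :=
    (hCOH M N _ _ _ _ (hp0 b hb0 _) (hp0 a' ha0 _) h1n h1n).2.2.1 h13 h11
  have h15 : Coh (fun g h => b g h ^ l ^ t) (fun _ _ => (1 : N)) := by
    have := hKIL M N b (hTWY M N L' S' d' b hS')
    rwa [hFN] at this
  have hcop : Nat.Coprime (q₀ * p ^ k) (l ^ t) := by
    refine Nat.Coprime.pow_right t (Nat.Coprime.mul_left ?_ (Nat.Coprime.pow_left k ?_))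
    · exact ((Nat.Prime.coprime_iff_not_dvd hl).2 hlq).symm
    · exact (Nat.coprime_primes hp hl).2 (Ne.symm hlp)
  have h16 : Coh b (fun _ _ => (1 : N)) :=
    (hCOH M N b b b b hb0 hb0 hb0 hb0).2.2.2.2.2.2 _ _ hcop h14 h15
  have hd1 : d' = 1 := hTRI M N L' d' S' b hL' hS' h16
  rw [hd1, mul_one] at hdd
  exact hdd ▸ hsd

end PRI

theorem st_PRI (hCS1 : ST_CS1.{u}) (hCS2 : ST_CS2.{u}) (hSYL : ST_SYL.{u}) (hIDD : ST_IDD.{u})
    (hTWR : ST_TWR.{u}) (hTWM : ST_TWM.{u}) (hTWK : ST_TWK.{u}) (hTWC : ST_TWC.{u})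
    (hTWY : ST_TWY.{u}) (hKIL : ST_KIL.{u}) (hCOH : ST_COH.{u}) (hRSC : ST_RSC.{u})
    (hTRI : ST_TRI.{u}) (hNSC : ST_NSC.{u}) (hMMI : ST_MMI.{u}) (hUNI : ST_UNI.{u}) :
    ST_PRI.{u} := by
  intro F N Γ L _ _ _ _ _ _ _ _ _ _ _ p n k r d S a hp hΓ hS hN hcoh hL hLd
  have hd0 : d ≠ 0 := hLd.2.1.ne'
  refine ⟨_, Nat.eq_prime_pow_of_unique_prime_dvd (p := p) hd0 ?_⟩
  intro l hl hld
  by_contra hlp
  obtain ⟨F', _, -, -, hF'1, -, t, ht⟩ := hSYL F N l hl ⊥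
  have hN0 : 0 < Module.finrank F F' := Module.finrank_pos
  have hFN : Module.finrank F' N = l ^ t := by
    have h1 := Module.finrank_mul_finrank F F' N
    exact Nat.eq_of_mul_eq_mul_left hN0 (h1.trans ht)
  exact hF'1 (hld.trans (PRI.core hCS1 hCS2 hIDD hTWR hTWM hTWK hTWC hTWY hKIL hCOH hRSC hTRI hNSC hMMI
    hUNI F N Γ L F' p n k r d l t S a hp hS hN hcoh hL hLd hl hlp hFN))

end Pool.Agent.Helper91.KZ
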